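import Pool.Agent.Q199.IM.Defs

/-!
# In a Hilbert space the slow functions on the sphere have an invariant mean
-/

set_option autoImplicit false

namespace Pool.Agent.Q199.IM

open Filter Topology

section H

variable {H : Type*} [NormedAddCommGroup H] [InnerProductSpace ℝ H]

/-- a reflection which moves the unit vector `a` to the unit vector `b` and moves `v` little -/
theorem exists_refl {a b : H} (ha : ‖a‖ = 1) (hb : ‖b‖ = 1) (hab : (inner ℝ (a) (b) : ℝ) ≤ 1 / 2) :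
    ∃ R : H ≃ₗᵢ[ℝ] H, R a = b ∧ ∀ v, ‖R v - v‖ ≤ 2 * (|(inner ℝ (v) (a) : ℝ)| + |(inner ℝ (v) (b) : ℝ)|) := by
  refine ⟨(Submodule.span ℝ {a - b})ᗮ.reflection, Submodule.reflection_sub (by rw [ha, hb]),
    fun v => ?_⟩
  have h1 : ‖a - b‖ ^ 2 = 2 - 2 * (inner ℝ (a) (b) : ℝ) := by
    rw [norm_sub_sq_real, ha, hb]; ring
  have h2 : 1 ≤ ‖a - b‖ := by
    have : 1 ≤ ‖a - b‖ ^ 2 := by rw [h1]; linarith
    nlinarith [norm_nonneg (a - b)]
  have h3 : (Submodule.span ℝ {a - b})ᗮ.reflection v - v =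
      -((2 * ((inner ℝ (a - b) (v) : ℝ) / ‖a - b‖ ^ 2)) • (a - b)) := by
    rw [Submodule.reflection_orthogonal_apply, Submodule.reflection_singleton_apply]
    have : (RCLike.ofReal ‖a - b‖ : ℝ) = ‖a - b‖ := rfl
    rw [this]
    module
  rw [h3, norm_neg, norm_smul, Real.norm_eq_abs, abs_mul, abs_div, abs_of_pos (by norm_num : (0 : ℝ) < 2),
    abs_of_nonneg (sq_nonneg ‖a - b‖)]
  have h4 : |(inner ℝ (a - b) (v) : ℝ)| ≤ |(inner ℝ (v) (a) : ℝ)| + |(inner ℝ (v) (b) : ℝ)| := by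
    rw [inner_sub_left, real_inner_comm, real_inner_comm v b]
    exact abs_sub _ _
  have h5 : 2 * (|(inner ℝ (a - b) (v) : ℝ)| / ‖a - b‖ ^ 2) * ‖a - b‖ = 2 * |(inner ℝ (a - b) (v) : ℝ)| / ‖a - b‖ := by
    have : ‖a - b‖ ≠ 0 := by linarith
    field_simp
  rw [h5, div_le_iff₀ (by linarith)]
  nlinarith [abs_nonneg (inner ℝ (v) (a) : ℝ), abs_nonneg (inner ℝ (v) (b) : ℝ), abs_nonneg (inner ℝ (a - b) (v) : ℝ)]

theorem exists_orthonormal_seq (hinf : ¬ FiniteDimensional ℝ H) :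
    ∃ e : ℕ → H, Orthonormal ℝ e := by
  let b := Module.Basis.ofVectorSpace ℝ H
  have hi : Infinite (Module.Basis.ofVectorSpaceIndex ℝ H) := by
    by_contra hcon
    rw [not_infinite_iff_finite] at hcon
    exact hinf (Module.Finite.of_basis b)
  let g : ℕ ↪ Module.Basis.ofVectorSpaceIndex ℝ H := Infinite.natEmbedding _
  have hli : LinearIndependent ℝ fun n => b (g n) := b.linearIndependent.comp g g.injective
  exact ⟨_, InnerProductSpace.gramSchmidtNormed_orthonormal hli⟩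

theorem ortho_tendsto {e : ℕ → H} (he : Orthonormal ℝ e) (v : H) :
    Tendsto (fun n => (inner ℝ (v) (e n) : ℝ)) atTop (𝓝 0) := by
  have h1 := (he.inner_products_summable (x := v)).tendsto_atTop_zero
  have h2 : Tendsto (fun n => ‖(inner ℝ (e n) (v) : ℝ)‖) atTop (𝓝 0) := by
    have := (h1.sqrt)
    simpa [Real.sqrt_sq_eq_abs] using this
  rw [tendsto_zero_iff_norm_tendsto_zero]
  refine h2.congr fun n => ?_
  rw [real_inner_comm]

end H

variable {E : Type*} [NormedAddCommGroup E] [NormedSpace ℝ E]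

open Classical in
/-- the limit along an ultrafilter -/
noncomputable def ulim (U : Filter ℕ) (a : ℕ → ℝ) : ℝ :=
  if h : ∃ l, Tendsto a U (𝓝 l) then h.choose else 0

theorem ulim_eq {U : Filter ℕ} [U.NeBot] {a : ℕ → ℝ} {l : ℝ} (h : Tendsto a U (𝓝 l)) :
    ulim U a = l := by
  have h' : ∃ l, Tendsto a U (𝓝 l) := ⟨l, h⟩
  unfold ulim
  rw [dif_pos h']
  exact tendsto_nhds_unique h'.choose_spec h

theorem ulim_tendsto (U : Ultrafilter ℕ) {a : ℕ → ℝ} {K : ℝ} (ha : ∀ n, |a n| ≤ K) :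
    Tendsto a U (𝓝 (ulim U a)) := by
  have hc : IsCompact (Set.Icc (-K) K) := isCompact_Icc
  obtain ⟨l, -, hl⟩ := hc.ultrafilter_le_nhds (U.map a) (by
    rw [Ultrafilter.coe_map, le_principal_iff, mem_map]
    exact Filter.univ_mem' fun n => abs_le.1 (ha n))
  have h : Tendsto a U (𝓝 l) := hl
  rwa [ulim_eq h]

theorem bwd {H : Type*} [NormedAddCommGroup H] [InnerProductSpace ℝ H] (ι : E ≃ₗᵢ[ℝ] H)
    (hinf : ¬ FiniteDimensional ℝ E) : ∃ M : (E → ℝ) → ℝ, IsInvMean M := by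
  have hinf' : ¬ FiniteDimensional ℝ H := fun h =>
    hinf (LinearEquiv.finiteDimensional ι.symm.toLinearEquiv)
  obtain ⟨h, hh⟩ := exists_orthonormal_seq hinf'
  set U : Ultrafilter ℕ := Filter.hyperfilter ℕ
  have hU : (U : Filter ℕ) ≤ atTop := Nat.hyperfilter_le_atTop
  let e : ℕ → E := fun n => ι.symm (h n)
  have he : ∀ n, ‖e n‖ = 1 := fun n => by
    show ‖ι.symm (h n)‖ = 1
    rw [ι.symm.norm_map, hh.1 n]
  have hT : ∀ φ : E → ℝ, Slow φ → Tendsto (fun n => φ (e n)) U (𝓝 (ulim U fun n => φ (e n))) := by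
    rintro φ ⟨m, v, K, h1, h2⟩
    exact ulim_tendsto U fun n => h1 _ (he n)
  refine ⟨fun φ => ulim U fun n => φ (e n), ⟨fun φ ψ hφ hψ => ?_, fun c φ hφ => ?_,
    fun φ hφ h0 => ?_, ?_, fun φ T hφ => ?_⟩⟩
  · exact ulim_eq ((hT φ hφ).add (hT ψ hψ))
  · exact ulim_eq ((hT φ hφ).const_mul c)
  · exact ge_of_tendsto' (hT φ hφ) fun n => h0 _ (he n)
  · exact ulim_eq tendsto_const_nhds
  · obtain ⟨m, v, K, h1, h2⟩ := id hφ
    refine ulim_eq ?_
    have hK0 : 0 ≤ K := (abs_nonneg _).trans (h1 _ (he 0))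
    -- the inner products
    let T' : H ≃ₗᵢ[ℝ] H := (ι.symm.trans T).trans ι
    have hT'e : ∀ n, T' (h n) = ι (T (e n)) := fun n => rfl
    have ht : ∀ w : H, Tendsto (fun n => inner ℝ w (T' (h n))) atTop (𝓝 0) := by
      intro w
      refine (ortho_tendsto hh (T'.symm w)).congr fun n => ?_
      rw [← T'.inner_map_map, T'.apply_symm_apply]
    -- the intermediate vectors
    have hc : ∀ n, ∃ k, inner ℝ (h n) (h k) ≤ 1 / 2 ∧ inner ℝ (h k) (T' (h n)) ≤ 1 / 2 ∧
        ∀ i, |inner ℝ (ι (v i)) (h k)| ≤ 1 / ((n : ℝ) + 1) := by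
      intro n
      have hp : (0 : ℝ) < 1 / ((n : ℝ) + 1) := by positivity
      have g1 := (ortho_tendsto hh (h n)).eventually_le_const (show (0 : ℝ) < 1 / 2 by norm_num)
      have g2 := (ortho_tendsto hh (T' (h n))).eventually_le_const
        (show (0 : ℝ) < 1 / 2 by norm_num)
      have g3 : ∀ᶠ k in atTop, ∀ i, |inner ℝ (ι (v i)) (h k)| ≤ 1 / ((n : ℝ) + 1) := by
        rw [Filter.eventually_all]
        intro i
        have := (ortho_tendsto hh (ι (v i))).abs
        rw [abs_zero] at this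
        exact this.eventually_le_const hp
      obtain ⟨k, h3, h4, h5⟩ := (g1.and (g2.and g3)).exists
      exact ⟨k, h3, by rwa [real_inner_comm], h5⟩
    choose k hk1 hk2 hk3 using hc
    have hR : ∀ n, ∃ R : E ≃ₗᵢ[ℝ] E, R (e n) = T (e n) ∧ ∀ i, ‖R (v i) - v i‖ ≤
        2 * (|inner ℝ (ι (v i)) (h n)| + 2 * (1 / ((n : ℝ) + 1)) +
          |inner ℝ (ι (v i)) (T' (h n))|) := by
      intro n
      have hTn : ‖T' (h n)‖ = 1 := by rw [T'.norm_map, hh.1 n]
      obtain ⟨R1, hR1, hR1'⟩ := exists_refl (hh.1 n) (hh.1 (k n)) (hk1 n)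
      obtain ⟨R2, hR2, hR2'⟩ := exists_refl (hh.1 (k n)) hTn (hk2 n)
      refine ⟨(ι.trans (R1.trans R2)).trans ι.symm, ?_, fun i => ?_⟩
      · show ι.symm (R2 (R1 (ι (ι.symm (h n))))) = T (e n)
        rw [ι.apply_symm_apply, hR1, hR2, hT'e, ι.symm_apply_apply]
      · have e1 : ((ι.trans (R1.trans R2)).trans ι.symm) (v i) - v i =
            ι.symm (R2 (R1 (ι (v i))) - ι (v i)) := by
          rw [map_sub, ι.symm_apply_apply]
          rfl
        rw [e1, ι.symm.norm_map]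
        have e2 : R2 (R1 (ι (v i))) - ι (v i) =
            R2 (R1 (ι (v i)) - ι (v i)) + (R2 (ι (v i)) - ι (v i)) := by
          rw [map_sub]; abel
        rw [e2]
        refine (norm_add_le _ _).trans ?_
        rw [R2.norm_map]
        have g1 := hR1' (ι (v i))
        have g2 := hR2' (ι (v i))
        have g3 := hk3 n i
        linarith
    choose R hR1 hR2 using hR
    have hdiff : Tendsto (fun n => φ (T (e n)) - φ (e n)) atTop (𝓝 0) := by
      have hb : Tendsto (fun n : ℕ => K * ∑ i, 2 * (|inner ℝ (ι (v i)) (h n)| +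
          2 * (1 / ((n : ℝ) + 1)) + |inner ℝ (ι (v i)) (T' (h n))|)) atTop (𝓝 0) := by
        have h0 : (0 : ℝ) = K * ∑ i : Fin m, 2 * (|(0 : ℝ)| + 2 * 0 + |(0 : ℝ)|) := by simp
        rw [h0]
        refine Tendsto.const_mul K (tendsto_finsetSum _ fun i _ => Tendsto.const_mul 2 ?_)
        exact (((ortho_tendsto hh (ι (v i))).abs).add
          (tendsto_one_div_add_atTop_nhds_zero_nat.const_mul 2)).add (ht (ι (v i))).abs
      refine squeeze_zero_norm (fun n => ?_) hb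
      rw [Real.norm_eq_abs, ← hR1 n]
      refine (h2 (R n) (e n) (he n)).trans (mul_le_mul_of_nonneg_left ?_ hK0)
      exact Finset.sum_le_sum fun i _ => hR2 n i
    have h3 := (hdiff.mono_left hU).add (hT φ hφ)
    rw [zero_add] at h3
    exact h3.congr fun n => by ring

end Pool.Agent.Q199.IM
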