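import Mathlib

/-!
# Invariant means on slowly varying functions on the sphere
-/

set_option autoImplicit false

namespace Pool.Agent.Q199.IM

open Filter Topology

variable {E : Type*} [NormedAddCommGroup E] [NormedSpace ℝ E]

/-- `φ` is bounded on the unit sphere and varies there by at most `K ∑ ‖T (e i) - e i‖` under each linear isometry `T`,
for some vectors `e 0, ..., e (m - 1)` (bounded functions on the sphere which are Lipschitz along the isometry group). -/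
def Slow (φ : E → ℝ) : Prop :=
  ∃ (m : ℕ) (e : Fin m → E) (K : ℝ), (∀ x : E, ‖x‖ = 1 → |φ x| ≤ K) ∧
    ∀ (T : E ≃ₗᵢ[ℝ] E) (x : E), ‖x‖ = 1 → |φ (T x) - φ x| ≤ K * ∑ i, ‖T (e i) - e i‖

/-- `M` is a mean on the slow functions on the unit sphere which is invariant under all linear isometries. -/
structure IsInvMean (M : (E → ℝ) → ℝ) : Prop where
  add : ∀ φ ψ : E → ℝ, Slow φ → Slow ψ → M (φ + ψ) = M φ + M ψ
  smul : ∀ (c : ℝ) (φ : E → ℝ), Slow φ → M (c • φ) = c * M φ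
  nonneg : ∀ φ : E → ℝ, Slow φ → (∀ x : E, ‖x‖ = 1 → 0 ≤ φ x) → 0 ≤ M φ
  one : M (fun _ => 1) = 1
  inv : ∀ (φ : E → ℝ) (T : E ≃ₗᵢ[ℝ] E), Slow φ → M (fun x => φ (T x)) = M φ

theorem Slow.of_eq_one : Slow (fun _ : E => (1 : ℝ)) :=
  ⟨0, Fin.elim0, 1, fun x _ => by norm_num, fun T x _ => by simp⟩

theorem Slow.add {φ ψ : E → ℝ} (hφ : Slow φ) (hψ : Slow ψ) : Slow (φ + ψ) := by
  obtain ⟨m, e, K, h1, h2⟩ := hφ
  obtain ⟨m', e', K', h1', h2'⟩ := hψ
  refine ⟨m + m', Fin.append e e', |K| + |K'|, fun x hx => ?_, fun T x hx => ?_⟩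
  · calc |(φ + ψ) x| ≤ |φ x| + |ψ x| := abs_add_le _ _
      _ ≤ |K| + |K'| := add_le_add ((h1 x hx).trans (le_abs_self K))
        ((h1' x hx).trans (le_abs_self K'))
  · rw [Fin.sum_univ_add]
    simp only [Fin.append_left, Fin.append_right]
    set s := ∑ i, ‖T (e i) - e i‖ with hs
    set s' := ∑ i, ‖T (e' i) - e' i‖ with hs'
    have hs0 : 0 ≤ s := Finset.sum_nonneg fun i _ => norm_nonneg _
    have hs0' : 0 ≤ s' := Finset.sum_nonneg fun i _ => norm_nonneg _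
    have h3 : |φ (T x) - φ x| ≤ |K| * s :=
      (h2 T x hx).trans (mul_le_mul_of_nonneg_right (le_abs_self K) hs0)
    have h3' : |ψ (T x) - ψ x| ≤ |K'| * s' :=
      (h2' T x hx).trans (mul_le_mul_of_nonneg_right (le_abs_self K') hs0')
    have h4 : (φ + ψ) (T x) - (φ + ψ) x = (φ (T x) - φ x) + (ψ (T x) - ψ x) := by
      simp only [Pi.add_apply]; ring
    rw [h4]
    refine (abs_add_le _ _).trans ?_
    nlinarith [abs_nonneg K, abs_nonneg K', mul_nonneg (abs_nonneg K) hs0',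
      mul_nonneg (abs_nonneg K') hs0]

theorem Slow.smul {φ : E → ℝ} (hφ : Slow φ) (c : ℝ) : Slow (c • φ) := by
  obtain ⟨m, e, K, h1, h2⟩ := hφ
  refine ⟨m, e, |c| * K, fun x hx => ?_, fun T x hx => ?_⟩
  · simp only [Pi.smul_apply, smul_eq_mul, abs_mul]
    exact mul_le_mul_of_nonneg_left (h1 x hx) (abs_nonneg c)
  · simp only [Pi.smul_apply, smul_eq_mul]
    rw [← mul_sub, abs_mul, mul_assoc]
    exact mul_le_mul_of_nonneg_left (h2 T x hx) (abs_nonneg c)

end Pool.Agent.Q199.IM
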