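import Pool.Agent.Q199.IM.Defs
import Pool.Agent.Y278.Rot.HessMain

/-!
# An invariant mean on the sphere of a Hilbertian transitive space makes it a Hilbert space
-/

set_option autoImplicit false

namespace Pool.Agent.Q199.IM

open Filter Topology Asymptotics

variable {E : Type} [NormedAddCommGroup E] [NormedSpace ℝ E]

/-- Cauchy-Schwarz for a positive bounded form -/
theorem form_le {A : E →L[ℝ] E →L[ℝ] ℝ} {C : ℝ} (hs : ∀ v w, A v w = A w v)
    (h0 : ∀ w, 0 ≤ A w w) (hC : ∀ w, A w w ≤ C * ‖w‖ ^ 2) (hC0 : 0 ≤ C) (v w : E) :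
    |A v w| ≤ C * (‖v‖ * ‖w‖) := by
  -- polarisation with the scaling parameter
  have key : ∀ v w : E, ‖v‖ = 1 → ‖w‖ = 1 → |A v w| ≤ C := by
    intro v w hv hw
    have h1 := h0 (v + w)
    have h2 := h0 (v - w)
    have h3 := hC v
    have h4 := hC w
    rw [hv] at h3
    rw [hw] at h4
    simp only [map_add, map_sub, add_apply, sub_apply] at h1 h2
    rw [hs w v] at h1 h2
    rw [abs_le]
    constructor <;> nlinarith
  by_cases hv : v = 0
  · subst hv; simp
  by_cases hw : w = 0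
  · subst hw; simp
  have hv' : ‖v‖ ≠ 0 := norm_ne_zero_iff.2 hv
  have hw' : ‖w‖ ≠ 0 := norm_ne_zero_iff.2 hw
  have h1 := key (‖v‖⁻¹ • v) (‖w‖⁻¹ • w)
    (by rw [norm_smul, norm_inv, norm_norm, inv_mul_cancel₀ hv'])
    (by rw [norm_smul, norm_inv, norm_norm, inv_mul_cancel₀ hw'])
  have e : A v w = ‖v‖ * ‖w‖ * A (‖v‖⁻¹ • v) (‖w‖⁻¹ • w) := by
    rw [map_smul, map_smul, smul_apply, smul_eq_mul, smul_eq_mul]
    field_simp
  rw [e, abs_mul, abs_of_nonneg (by positivity : 0 ≤ ‖v‖ * ‖w‖)]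
  nlinarith [mul_nonneg (norm_nonneg v) (norm_nonneg w)]

theorem fwd [CompleteSpace E] [TopologicalSpace.SeparableSpace E]
    {H : Type} [NormedAddCommGroup H] [InnerProductSpace ℝ H] (Φ : E ≃L[ℝ] H)
    (hG : ∀ x y : E, ‖x‖ = 1 → ‖y‖ = 1 → ∃ T : E ≃ₗᵢ[ℝ] E, T x = y)
    (hinf : ¬ FiniteDimensional ℝ E)
    {M : (E → ℝ) → ℝ} (hM : IsInvMean M) (x y : E) :
    ‖x + y‖ * ‖x + y‖ + ‖x - y‖ * ‖x - y‖ = 2 * (‖x‖ * ‖x‖ + ‖y‖ * ‖y‖) := by
  obtain ⟨c, C, f, A, hc, hA, -⟩ := Pool.Agent.Y278.Rot.hessian_field Φ hG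
  have hnt : Nontrivial E := by
    by_contra h
    rw [not_nontrivial_iff_subsingleton] at h
    exact hinf inferInstance
  obtain ⟨e, he⟩ := exists_norm_eq E (zero_le_one (α := ℝ))
  have hcC : c ≤ C := by
    have := (hA e he).2.1 e
    rw [he] at this
    linarith [this.1.trans this.2]
  have hC0 : 0 ≤ C := hc.le.trans hcC
  have h0 : ∀ x, ‖x‖ = 1 → ∀ w, 0 ≤ A x w w := fun x hx w =>
    (mul_nonneg hc.le (sq_nonneg _)).trans ((hA x hx).2.1 w).1
  have hle : ∀ x, ‖x‖ = 1 → ∀ v w, |A x v w| ≤ C * (‖v‖ * ‖w‖) := fun x hx =>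
    form_le (hA x hx).1 (h0 x hx) (fun w => ((hA x hx).2.1 w).2) hC0
  let φ : E → E → ℝ := fun v x => A x v v
  have hslow : ∀ v, Slow (φ v) := by
    intro v
    refine ⟨1, fun _ => v, C * (2 * ‖v‖ + ‖v‖ ^ 2), fun x hx => ?_, fun T x hx => ?_⟩
    · have := hle x hx v v
      refine this.trans ?_
      nlinarith [norm_nonneg v, mul_nonneg hC0 (norm_nonneg v)]
    · -- `A (T x) v v = A x (T⁻¹ v) (T⁻¹ v)`
      have e1 : A (T x) v v = A x (T.symm v) (T.symm v) := by
        have := (hA x hx).2.2.2 T (T.symm v) (T.symm v)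
        rwa [T.apply_symm_apply] at this
      show |A (T x) v v - A x v v| ≤ _
      rw [e1]
      have e2 : A x (T.symm v) (T.symm v) - A x v v =
          A x (T.symm v - v) (T.symm v) + A x v (T.symm v - v) := by
        rw [map_sub, map_sub, sub_apply]
        ring
      have e3 : ‖T.symm v - v‖ = ‖T v - v‖ := by
        rw [← T.norm_map (T.symm v - v), map_sub, T.apply_symm_apply, norm_sub_rev]
      rw [e2]
      refine (abs_add_le _ _).trans ?_
      have h1 := hle x hx (T.symm v - v) (T.symm v)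
      have h2 := hle x hx v (T.symm v - v)
      rw [e3, T.symm.norm_map] at h1
      rw [e3] at h2
      rw [Fin.sum_univ_one]
      nlinarith [mul_nonneg hC0 (mul_nonneg (sq_nonneg ‖v‖) (norm_nonneg (T v - v)))]
  -- the invariant form
  let F : E → ℝ := fun v => M (φ v)
  have hFinv : ∀ (T : E ≃ₗᵢ[ℝ] E) (v : E), F (T v) = F v := by
    intro T v
    have h1 := hM.inv (φ (T v)) T (hslow _)
    have hone : ∀ ψ ψ' : E → ℝ, Slow ψ → Slow ψ' → (∀ x, ‖x‖ = 1 → ψ x = ψ' x) → M ψ = M ψ' := by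
      intro ψ ψ' h2 h3 h4
      have h5 := hM.nonneg (ψ + (-1 : ℝ) • ψ') (h2.add (h3.smul _)) (fun x hx => by
        simp [h4 x hx])
      have h6 := hM.nonneg (ψ' + (-1 : ℝ) • ψ) (h3.add (h2.smul _)) (fun x hx => by
        simp [h4 x hx])
      rw [hM.add _ _ h2 (h3.smul _), hM.smul _ _ h3] at h5
      rw [hM.add _ _ h3 (h2.smul _), hM.smul _ _ h2] at h6
      linarith
    have h2 : Slow fun x => φ (T v) (T x) := by
      obtain ⟨m, e, K, h3, h4⟩ := hslow (T v)
      refine ⟨m, fun i => T.symm (e i), K, fun x hx => h3 _ (by rw [T.norm_map, hx]),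
        fun S x hx => ?_⟩
      have h5 := h4 ((T.symm.trans S).trans T) (T x) (by rw [T.norm_map, hx])
      have e6 : ∀ i, ‖((T.symm.trans S).trans T) (e i) - e i‖ =
          ‖S (T.symm (e i)) - T.symm (e i)‖ := by
        intro i
        rw [← T.norm_map (S (T.symm (e i)) - T.symm (e i)), map_sub, T.apply_symm_apply]
        rfl
      simp only [e6] at h5
      have e7 : ((T.symm.trans S).trans T) (T x) = T (S x) := by
        show T (S (T.symm (T x))) = _
        rw [T.symm_apply_apply]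
      rw [e7] at h5
      exact h5
    have h3 := hone _ (φ v) h2 (hslow v) (fun x hx => (hA x hx).2.2.2 T v v)
    show M (φ (T v)) = M (φ v)
    rw [← h3, h1]
  have hFlow : ∀ v, c * ‖v‖ ^ 2 ≤ F v := by
    intro v
    have h1 := hM.nonneg (φ v + (-(c * ‖v‖ ^ 2)) • (fun _ => (1 : ℝ)))
      ((hslow v).add (Slow.of_eq_one.smul _)) (fun x hx => by
        have := ((hA x hx).2.1 v).1
        simp only [φ, Pi.add_apply, Pi.smul_apply, smul_eq_mul, mul_one]
        linarith)
    rw [hM.add _ _ (hslow v) (Slow.of_eq_one.smul _), hM.smul _ _ Slow.of_eq_one, hM.one] at h1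
    show c * ‖v‖ ^ 2 ≤ M (φ v)
    linarith
  have hFhom : ∀ (a : ℝ) (v : E), F (a • v) = a ^ 2 * F v := by
    intro a v
    show M (φ (a • v)) = a ^ 2 * M (φ v)
    rw [← hM.smul _ _ (hslow v)]
    congr 1
    funext x
    simp only [φ, map_smul, smul_apply, Pi.smul_apply, smul_eq_mul]
    ring
  have hFpar : ∀ v w, F (v + w) + F (v - w) = 2 * (F v + F w) := by
    intro v w
    show M (φ (v + w)) + M (φ (v - w)) = 2 * (M (φ v) + M (φ w))
    rw [← hM.add _ _ (hslow _) (hslow _), ← hM.add _ _ (hslow _) (hslow _),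
      ← hM.smul _ _ ((hslow v).add (hslow w))]
    congr 1
    funext x
    simp only [φ, map_add, map_sub, add_apply, sub_apply,
      Pi.add_apply, Pi.smul_apply, smul_eq_mul]
    ring
  have hFe : ∀ v, F v = F e * ‖v‖ ^ 2 := by
    intro v
    by_cases hv : v = 0
    · subst hv
      have := hFhom 0 (0 : E)
      rw [smul_zero] at this
      rw [norm_zero, this]
      ring
    · have hv' : ‖v‖ ≠ 0 := norm_ne_zero_iff.2 hv
      obtain ⟨T, hT⟩ := hG e (‖v‖⁻¹ • v) he
        (by rw [norm_smul, norm_inv, norm_norm, inv_mul_cancel₀ hv'])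
      have h1 := hFinv T e
      rw [hT, hFhom] at h1
      field_simp at h1
      linarith
  have hpos : 0 < F e := by
    have := hFlow e
    rw [he] at this
    linarith
  have h1 := hFpar x y
  rw [hFe (x + y), hFe (x - y), hFe x, hFe y] at h1
  have h2 : F e * (‖x + y‖ ^ 2 + ‖x - y‖ ^ 2) = F e * (2 * (‖x‖ ^ 2 + ‖y‖ ^ 2)) := by linarith
  have h3 := mul_left_cancel₀ hpos.ne' h2
  nlinarith [h3]

end Pool.Agent.Q199.IM
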